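import Pool.Agent.H128R3.GJB
import Pool.Agent.H128R3.JD.DelHk
import Pool.Agent.N793.LI.Zer

/-!
# Hecke series with sign one: the properties needed for the Li coefficients; the discriminant
-/

set_option autoImplicit false

open Complex Filter Topology MeasureTheory
open scoped ComplexConjugate

namespace Pool.Agent.N965.RL

open Pool.Agent.H471R3.GJ Pool.Agent.H128R3.GJB Pool.Agent.H128R3

/-- `Λ(k/2 + z)` for a Hecke series with sign `1` has the properties `Sf`. -/
theorem sf_hecke {H : Hk} (h : IsHk H) (he : H.ε = 1) : Pool.Agent.N793.LI.Sf (X1 H) (kp H / 2) := by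
  obtain ⟨-, hX, hconj, -⟩ := (GJA.isL_all _ (GJA.isHk_isL H h).2.2.2).1
  have hL := (GJA.isHk_isL H h).2.2.2
  have hk := kp_pos h
  have hk1 := kp_one h
  have e : ∀ z : ℂ, X1 H z = (dat H).XX (z / kp H) := fun z => by
    rw [X1_eq h, if_pos he, one_mul]
  obtain ⟨K, hK⟩ := grow (dat H) hL (b1 (dat H) hL)
  refine ⟨X1_diff h, ?_, ⟨|K|, fun z => ?_⟩, fun z hz => ?_, ⟨1, one_ne_zero, fun z => ?_⟩⟩
  · by_contra hcon
    push Not at hcon
    have h1 := hL.XX_zero 1 (by
      have h2 := hcon ((kp H : ℂ) * 1)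
      rw [e, mul_div_cancel_left₀ _ (kp_ne h)] at h2
      exact h2)
    rw [Complex.one_re, abs_one] at h1
    linarith
  · rw [e, ← hX]
    refine (hK _).trans ?_
    rw [Real.exp_le_exp]
    have h1 : ‖(z / (kp H : ℂ)) ^ 2‖ ≤ ‖z‖ ^ 2 := by
      rw [norm_pow, norm_div, Complex.norm_real, Real.norm_eq_abs, abs_of_pos hk]
      exact pow_le_pow_left₀ (by positivity) (div_le_self (norm_nonneg z) hk1) 2
    have h2 : (1 + ‖(z / (kp H : ℂ)) ^ 2‖) ^ (3 / 4 : ℝ) ≤ (1 + ‖z‖) ^ (3 / 2 : ℝ) := by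
      have h3 : (1 + ‖z‖) ^ (3 / 2 : ℝ) = ((1 + ‖z‖) ^ 2) ^ (3 / 4 : ℝ) := by
        rw [← Real.rpow_natCast, ← Real.rpow_mul (by positivity)]
        norm_num
      rw [h3]
      refine Real.rpow_le_rpow (by positivity) ?_ (by norm_num)
      nlinarith [norm_nonneg z]
    exact (mul_le_mul_of_nonneg_right (le_abs_self K) (by positivity)).trans
      (mul_le_mul_of_nonneg_left h2 (abs_nonneg K))
  · rw [e] at hz
    have h1 := hL.XX_zero _ hz
    rw [Complex.div_ofReal_re, abs_div, abs_of_pos hk, div_le_iff₀ hk] at h1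
    linarith
  · rw [one_mul, e, e, ← hX, ← hX, ← hconj]
    congr 1
    rw [map_pow, map_div₀, map_neg, Complex.conj_ofReal, Complex.conj_conj]
    ring

/-- positivity on the real line -/
theorem pos_hecke {H : Hk} (h : IsHk H) (he : H.ε = 1) (h0 : ∀ y, 0 < y → 0 ≤ H.φ y) (x : ℝ) :
    X1 H (x : ℂ) ≠ 0 := by
  have hL := (GJA.isHk_isL H h).2.2.2
  have hk := kp_pos h
  have e : X1 H (x : ℂ) = (dat H).XX (((x / kp H : ℝ) : ℂ)) := by
    rw [X1_eq h, if_pos he, one_mul]
    push_cast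
    rfl
  obtain ⟨T, hT⟩ := hL.Φ_pos
  have hΦ : (dat H).Φ = Phi0 H := by
    show PhiH H = Phi0 H
    unfold PhiH
    funext t
    rw [if_pos he]
  have hnn : ∀ t, 0 ≤ (dat H).Φ t := by
    intro t
    rw [hΦ]
    unfold Phi0
    have := h0 (Real.exp (t / kp H)) (Real.exp_pos _)
    positivity
  rw [e, hL.XX_eq]
  have e2 : (∫ t : ℝ, (((dat H).Φ t : ℝ) : ℂ) * cexp (((x / kp H : ℝ) : ℂ) * t)) =
      ((∫ t : ℝ, (dat H).Φ t * Real.exp (x / kp H * t) : ℝ) : ℂ) := by
    rw [← integral_complex_ofReal]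
    congr 1
    funext t
    push_cast
    rfl
  rw [e2]
  have hcont : Continuous fun t : ℝ => (dat H).Φ t * Real.exp (x / kp H * t) :=
    hL.Φ_cont.mul (Real.continuous_exp.comp (continuous_const.mul continuous_id))
  have hint : Integrable fun t : ℝ => (dat H).Φ t * Real.exp (x / kp H * t) := by
    obtain ⟨C, c1, c2, h1, h2, hb⟩ := hL.Φ_dec
    have h3 := (HOdd.dom hL.Φ_cont h1 h2 hb (((x / kp H : ℝ) : ℂ))).re
    refine h3.congr (Eventually.of_forall fun t => ?_)
    show (((((dat H).Φ t : ℝ) : ℂ) * cexp (((x / kp H : ℝ) : ℂ) * t)).re) = _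
    rw [Complex.re_ofReal_mul, ← Complex.ofReal_mul, ← Complex.ofReal_exp, Complex.ofReal_re]
  have hpos : 0 < ∫ t : ℝ, (dat H).Φ t * Real.exp (x / kp H * t) := by
    refine (integral_pos_iff_support_of_nonneg (fun t => mul_nonneg (hnn t) (Real.exp_pos _).le) hint).2 ?_
    refine lt_of_lt_of_le ?_ (measure_mono (s := Set.Ioo T (T + 1)) ?_)
    · rw [Real.volume_Ioo]
      simp
    · intro t ht
      exact (mul_pos (hT t ht.1.le) (Real.exp_pos _)).ne'
  exact_mod_cast hpos.ne'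

end Pool.Agent.N965.RL
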